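import Mathlib
import Pool.Agent.Lib.MP_97e4cf_co.GenericSign

set_option autoImplicit false

namespace Pool.Agent.Results.MP_97e4cf_co.GenericInertia

open Matrix Pool.Agent.Lib.MP_97e4cf_co

/-- Let `M` be a `G`-partial matrix such that all partial matrices near `M` are minimally
completable to full rank, and let `(m, n, 0)` be the inertia of a completion of `M`. Then the
complement of `G` has a proper bicoloring with exactly `m` red and `n` blue vertices. -/
theorem result {N : ℕ} (G : SemisimpleGraph N) (M : PartialMatrix G)
    (hM : M ∈ interior {M' : PartialMatrix G | MinCompletable G M' N})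
    (A : Matrix (Fin N) (Fin N) ℝ) (hA : IsCompletion G M A) (m n : ℕ)
    (hI : HasInertia A m n 0) :
    ∃ c : Fin N → Bool, IsProperBicoloring G c ∧
      (Finset.univ.filter (fun i => c i = true)).card = m ∧
      (Finset.univ.filter (fun i => c i = false)).card = n := by
  classical
  let _ : Fintype G := Fintype.ofFinite G
  obtain ⟨ε, hε, hball⟩ := Metric.mem_nhds_iff.mp (mem_interior_iff_mem_nhds.mp hM)
  refine bicoloring_of_near (A0 := A) hε hA.1 ?_ hI
  intro A' hA' v hv1 hv2
  let M' : PartialMatrix G := fun e => Sym2.lift
    ⟨fun i j => A' i j, fun i j => (hA'.1.apply i j).symm⟩ e.1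
  have hM' : M' ∈ Metric.ball M ε := by
    rw [Metric.mem_ball, dist_pi_lt_iff hε]
    rintro ⟨e, he⟩
    induction e using Sym2.ind with
    | _ i j =>
      have h1 := hA'.2 i j he
      rw [hA.2 i j he] at h1
      rw [Real.dist_eq]
      exact h1
  have hmin := hball hM'
  have hcomp : IsCompletion G M' A' := ⟨hA'.1, fun i j h => rfl⟩
  have hrank : A'.rank = N := by
    refine le_antisymm ?_ (hmin.2 A' hcomp)
    have := A'.rank_le_card_width
    rwa [Fintype.card_fin] at this
  have hker : LinearMap.ker A'.mulVecLin = ⊥ := by
    have h1 := A'.mulVecLin.finrank_range_add_finrank_ker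
    rw [Module.finrank_fin_fun] at h1
    have h2 : Module.finrank ℝ (LinearMap.range A'.mulVecLin) = N := hrank
    exact Submodule.finrank_eq_zero.mp (by omega)
  have hmem : v ∈ LinearMap.ker A'.mulVecLin :=
    funext fun i => hv2 i (Finset.notMem_empty i)
  rw [hker] at hmem
  exact (Submodule.mem_bot ℝ).mp hmem

end Pool.Agent.Results.MP_97e4cf_co.GenericInertia
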