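import Mathlib
import Pool.Agent.Lib.MP_97e4cf_co.Defs
import Pool.Agent.Lib.MP_97e4cf_co.Inertia
import Pool.Agent.Lib.MP_97e4cf_co.Typical

set_option autoImplicit false

namespace Pool.Agent.Results.MP_97e4cf_co.InertiaCounterexample

open Matrix Pool.Agent.Lib.MP_97e4cf_co

/-- the five unknown positions: the edges of the complement (a double star plus two isolated
vertices `0`, `1`). -/
def freeSet : Finset (Sym2 (Fin 8)) := {s(2, 3), s(2, 6), s(2, 7), s(3, 4), s(3, 5)}

/-- the positions with prescribed value one -/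
def oneSet : Finset (Sym2 (Fin 8)) := {s(0, 2), s(1, 3), s(4, 4), s(5, 5), s(6, 6), s(7, 7)}

/-- the graph of known entries -/
def G8 : SemisimpleGraph 8 := {e | e ∉ freeSet}

/-- the partial matrix -/
def M8 : PartialMatrix G8 := fun e => if e.1 ∈ oneSet then 1 else 0

/-- the explicit form of the completions -/
theorem completion_eq (A : Matrix (Fin 8) (Fin 8) ℝ) (hA : IsCompletion G8 M8 A) :
    A = !![0, 0, 1, 0, 0, 0, 0, 0;
           0, 0, 0, 1, 0, 0, 0, 0;
           1, 0, 0, A 2 3, 0, 0, A 2 6, A 2 7;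
           0, 1, A 2 3, 0, A 3 4, A 3 5, 0, 0;
           0, 0, 0, A 3 4, 1, 0, 0, 0;
           0, 0, 0, A 3 5, 0, 1, 0, 0;
           0, 0, A 2 6, 0, 0, 0, 1, 0;
           0, 0, A 2 7, 0, 0, 0, 0, 1] := by
  obtain ⟨hs, he⟩ := hA
  have h0 : ∀ i j : Fin 8, s(i, j) ∉ freeSet → s(i, j) ∉ oneSet → A i j = 0 := by
    intro i j h1 h2
    rw [he i j h1]
    simp [M8, h2]
  have h1 : ∀ i j : Fin 8, s(i, j) ∉ freeSet → s(i, j) ∈ oneSet → A i j = 1 := by
    intro i j h1 h2
    rw [he i j h1]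
    simp [M8, h2]
  have hsym : ∀ i j, A i j = A j i := fun i j => hs.apply j i
  ext i j
  fin_cases i <;> fin_cases j <;>
    first
    | exact h0 _ _ (by decide) (by decide)
    | exact h1 _ _ (by decide) (by decide)
    | rfl
    | exact hsym _ _

theorem inertia (A : Matrix (Fin 8) (Fin 8) ℝ) (hA : IsCompletion G8 M8 A) :
    HasInertia A 6 2 0 := by
  have hH : A.IsHermitian := by
    have := hA.1
    rwa [Matrix.isHermitian_iff_isSymm]
  have hE := completion_eq A hA
  set t := A 2 3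
  set a := A 2 6
  set b := A 2 7
  set c := A 3 4
  set d := A 3 5
  refine hasInertia_of hH
    !![1, -t, 0, 0, -a, -b;
       0, 1, -c, -d, 0, 0;
       1, 0, 0, 0, 0, 0;
       0, 1, 0, 0, 0, 0;
       0, 0, 1, 0, 0, 0;
       0, 0, 0, 1, 0, 0;
       0, 0, 0, 0, 1, 0;
       0, 0, 0, 0, 0, 1]
    !![-1, -t; 0, -1; 1, 0; 0, 1; 0, 0; 0, 0; 0, 0; 0, 0] (by norm_num) ?_ ?_
  · intro x hx
    rw [hE]
    have hval : (!![1, -t, 0, 0, -a, -b;
       0, 1, -c, -d, 0, 0;
       1, 0, 0, 0, 0, 0;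
       0, 1, 0, 0, 0, 0;
       0, 0, 1, 0, 0, 0;
       0, 0, 0, 1, 0, 0;
       0, 0, 0, 0, 1, 0;
       0, 0, 0, 0, 0, 1] *ᵥ x) ⬝ᵥ (!![0, 0, 1, 0, 0, 0, 0, 0;
           0, 0, 0, 1, 0, 0, 0, 0;
           1, 0, 0, t, 0, 0, a, b;
           0, 1, t, 0, c, d, 0, 0;
           0, 0, 0, c, 1, 0, 0, 0;
           0, 0, 0, d, 0, 1, 0, 0;
           0, 0, a, 0, 0, 0, 1, 0;
           0, 0, b, 0, 0, 0, 0, 1] *ᵥ (!![1, -t, 0, 0, -a, -b;
       0, 1, -c, -d, 0, 0;
       1, 0, 0, 0, 0, 0;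
       0, 1, 0, 0, 0, 0;
       0, 0, 1, 0, 0, 0;
       0, 0, 0, 1, 0, 0;
       0, 0, 0, 0, 1, 0;
       0, 0, 0, 0, 0, 1] *ᵥ x)) =
       2 * x 0 ^ 2 + 2 * x 1 ^ 2 + x 2 ^ 2 + x 3 ^ 2 + x 4 ^ 2 + x 5 ^ 2 := by
      simp only [mulVec, dotProduct, Fin.sum_univ_succ, Fin.sum_univ_zero]
      simp
      ring
    rw [hval]
    obtain ⟨i, hi⟩ := Function.ne_iff.mp hx
    have hi0 : x i ≠ 0 := hi
    have hle : x i ^ 2 ≤ 2 * x 0 ^ 2 + 2 * x 1 ^ 2 + x 2 ^ 2 + x 3 ^ 2 + x 4 ^ 2 + x 5 ^ 2 := by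
      have e0 := sq_nonneg (x 0)
      have e1 := sq_nonneg (x 1)
      have e2 := sq_nonneg (x 2)
      have e3 := sq_nonneg (x 3)
      have e4 := sq_nonneg (x 4)
      have e5 := sq_nonneg (x 5)
      fin_cases i <;> simp <;> linarith
    exact lt_of_lt_of_le (by positivity) hle
  · intro x hx
    rw [hE]
    have hval : (!![-1, -t; 0, -1; 1, 0; 0, 1; 0, 0; 0, 0; 0, 0; 0, 0] *ᵥ x) ⬝ᵥ
      (!![0, 0, 1, 0, 0, 0, 0, 0;
           0, 0, 0, 1, 0, 0, 0, 0;
           1, 0, 0, t, 0, 0, a, b;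
           0, 1, t, 0, c, d, 0, 0;
           0, 0, 0, c, 1, 0, 0, 0;
           0, 0, 0, d, 0, 1, 0, 0;
           0, 0, a, 0, 0, 0, 1, 0;
           0, 0, b, 0, 0, 0, 0, 1] *ᵥ
        (!![-1, -t; 0, -1; 1, 0; 0, 1; 0, 0; 0, 0; 0, 0; 0, 0] *ᵥ x)) =
       -(2 * x 0 ^ 2 + 2 * x 1 ^ 2) := by
      simp only [mulVec, dotProduct, Fin.sum_univ_succ, Fin.sum_univ_zero]
      simp
      ring
    rw [hval]
    obtain ⟨i, hi⟩ := Function.ne_iff.mp hx
    have hi0 : x i ≠ 0 := hi
    rw [neg_lt_zero]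
    have hle : x i ^ 2 ≤ 2 * x 0 ^ 2 + 2 * x 1 ^ 2 := by
      have e0 := sq_nonneg (x 0)
      have e1 := sq_nonneg (x 1)
      fin_cases i <;> simp <;> linarith
    exact lt_of_lt_of_le (by positivity) hle

/-- A proper bicoloring of the complement. -/
def col : Fin 8 → Bool := ![true, true, true, false, true, true, false, false]

theorem col_proper : IsProperBicoloring G8 col := by
  have h : ∀ i j : Fin 8, s(i, j) ∈ freeSet → col i ≠ col j := by decide
  intro i j hij
  apply h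
  by_contra hn
  exact hij hn

/-- The completion with all free entries zero. -/
def A8 : Matrix (Fin 8) (Fin 8) ℝ :=
  fun i j => if s(i, j) ∈ oneSet then 1 else 0

theorem A8_completion : IsCompletion G8 M8 A8 := by
  constructor
  · apply Matrix.IsSymm.ext
    intro i j
    simp only [A8]
    rw [Sym2.eq_swap]
  · intro i j h
    rfl

/-- Every proper bicoloring of the complement has at most five red vertices. -/
theorem no_bicoloring (c : Fin 8 → Bool) (hc : IsProperBicoloring G8 c) :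
    (Finset.univ.filter (fun i => c i = true)).card ≤ 5 := by
  have hf : ∀ i j : Fin 8, s(i, j) ∈ freeSet → c i ≠ c j := by
    intro i j h
    exact hc i j (fun hn => hn h)
  have h23 := hf 2 3 (by decide)
  have h26 := hf 2 6 (by decide)
  have h27 := hf 2 7 (by decide)
  have h34 := hf 3 4 (by decide)
  have h35 := hf 3 5 (by decide)
  rw [Finset.card_filter, Fin.sum_univ_eight]
  have b0 : (if c 0 = true then 1 else 0) ≤ 1 := by split <;> omega
  have b1 : (if c 1 = true then 1 else 0) ≤ 1 := by split <;> omega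
  cases h2 : c 2 <;> cases h3 : c 3 <;> cases h4 : c 4 <;> cases h5 : c 5 <;> cases h6 : c 6 <;>
    cases h7 : c 7 <;> simp_all <;> omega

/-- Negative answer to Q1: there are a full-rank typical semisimple graph `G` on 8 vertices and a
`G`-partial matrix `M`, minimally completable to rank 8, all of whose completions have inertia
`(6, 2, 0)`, although no proper bicoloring of the complement of `G` has exactly 6 red and 2 blue
vertices. -/
theorem result : ∃ (G : SemisimpleGraph 8) (M : PartialMatrix G),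
    FullRankTypical G ∧ MinCompletable G M 8 ∧
    (∀ A, IsCompletion G M A → HasInertia A 6 2 0) ∧
    ¬ ∃ c : Fin 8 → Bool, IsProperBicoloring G c ∧
      (Finset.univ.filter (fun i => c i = true)).card = 6 ∧
      (Finset.univ.filter (fun i => c i = false)).card = 2 := by
  refine ⟨G8, M8, fullRankTypical_of_bicoloring G8 col col_proper,
    ⟨⟨A8, A8_completion, rank_of_hasInertia (inertia A8 A8_completion)⟩, ?_⟩, inertia, ?_⟩
  · intro A hA
    exact (rank_of_hasInertia (inertia A hA)).ge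
  · rintro ⟨c, hc, h6, -⟩
    have := no_bicoloring c hc
    omega

end Pool.Agent.Results.MP_97e4cf_co.InertiaCounterexample
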